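import Pool.Agent.Work.MP_d159ed_nt.Final

/-!
# MP_d159ed_nt: infinitely many five-term arithmetic progressions of base-2 pseudoprimes

Full affirmative answer to Q1 of problems/MP_d159ed_nt/problem.md.
-/

set_option autoImplicit false

namespace Pool.Agent.Results.MP_d159ed_nt.FullAnswer

/-- A pseudoprime (to base 2): a composite positive integer `n` (that is `1 < n` and `n` is not
prime) with `n ∣ 2 ^ n - 2`, that is `2 ^ n ≡ 2 (mod n)`. -/
def IsPseudoprime (n : ℕ) : Prop :=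
  1 < n ∧ ¬ n.Prime ∧ 2 ^ n ≡ 2 [MOD n]

/-- A five-term arithmetic progression: a quintuple `(x 0, x 1, x 2, x 3, x 4)` of positive
integers of the form `(a, a + d, a + 2 d, a + 3 d, a + 4 d)` with common difference `d ≥ 1`. -/
def IsFiveTermProgression (x : Fin 5 → ℕ) : Prop :=
  (∀ i, 1 ≤ x i) ∧ ∃ a d : ℕ, 1 ≤ d ∧ ∀ i : Fin 5, x i = a + (i : ℕ) * d

/-- The existing proof in a stronger form: the first term can be taken larger than any given
bound and all terms are odd. -/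
theorem strong (B : ℕ) : ∃ a d : ℕ, B < a ∧ 0 < d ∧ ∀ i : ℕ, i < 5 →
    (1 < a + i * d ∧ ¬ (a + i * d).Prime ∧ (a + i * d) ∣ 2 ^ (a + i * d) - 2) ∧
      Odd (a + i * d) := by
  obtain ⟨u, z1, hz1⟩ := D159.primeAP
  obtain ⟨z2, hz2⟩ := D159.claimE2 u
  obtain ⟨z3, hz3⟩ := (D159.claimE3 D159.claimE3a D159.claimE3c D159.claimE3d) u
  obtain ⟨z, hz, hgood⟩ := D159.goodZInfinite_and_primesInS.1 (z1 + z2 + z3 + B + 3)
  obtain ⟨k, hk1, hkq, w, e, he, hap⟩ := hz1 z (by omega) hgood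
  obtain ⟨-, hh0, -⟩ := hz2 z (by omega)
  have hN := hz3 z (by omega) k hk1 hkq
  set n := D159.h0 u z * k with hn
  have hz3' : 3 ≤ z := by omega
  have h8 : 8 ∣ n := by
    have : (2 : ℕ) ^ 3 ∣ 2 ^ (2 ^ D159.bz u z * z ^ 2) := by
      apply pow_dvd_pow
      have h2 : 1 ≤ 2 ^ D159.bz u z := Nat.one_le_two_pow
      nlinarith
    have h8' : 8 ∣ D159.h0 u z := by
      unfold D159.h0
      exact Dvd.dvd.mul_right (Dvd.dvd.mul_right (by simpa using this) _) _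
    exact Dvd.dvd.mul_right h8' _
  have hh0pos : 0 < D159.h0 u z := lt_of_lt_of_le (by positivity) hh0
  have hnpos : 1 ≤ n := Nat.mul_pos hh0pos hk1
  have hzh : z ≤ n := by
    have h1 : z ≤ 2 ^ z ^ 2 := by
      have : z < 2 ^ z := Nat.lt_two_pow_self
      have h2 : 2 ^ z ≤ 2 ^ z ^ 2 := Nat.pow_le_pow_right (by norm_num) (by nlinarith)
      omega
    calc z ≤ 2 ^ z ^ 2 := h1
      _ ≤ D159.h0 u z := hh0
      _ ≤ n := Nat.le_mul_of_pos_right _ hk1
  have h2n : 2 ∣ n := Dvd.dvd.trans (by norm_num) h8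
  have hterm : ∀ i : ℕ, i < 5 →
      D159.Ncyc n * (1 + n * w) + i * (D159.Ncyc n * (n * e)) =
        D159.Ncyc n * (1 + n * (w + i * e)) := by
    intro i _; ring
  have hps : ∀ i : ℕ, i < 5 → 1 < D159.Ncyc n ∧
      ¬ (D159.Ncyc n * (1 + n * (w + i * e))).Prime ∧
      (D159.Ncyc n * (1 + n * (w + i * e))) ∣ 2 ^ (D159.Ncyc n * (1 + n * (w + i * e))) - 2 := by
    intro i hi
    obtain ⟨hS, hpr⟩ := hap i hi
    have hodd : Odd (w + i * e) := by
      have := hS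
      simp only [D159.Sset, Finset.mem_filter] at this
      exact this.2.1
    exact D159.claimE4 n (w + i * e) h8 hnpos hodd hpr (hN _ hS)
  have hN1 : 1 < D159.Ncyc n := (hps 0 (by norm_num)).1
  have hNodd : Odd (D159.Ncyc n) := by
    have h := hN _ (hap 0 (by norm_num)).1
    have h2 : D159.Ncyc n ≡ 1 [MOD 2] :=
      Nat.ModEq.of_dvd (Dvd.dvd.mul_right h2n _) h
    exact Nat.odd_iff.mpr h2
  have hw : 1 ≤ w := by
    have := (hap 0 (by norm_num)).1
    simp only [D159.Sset, Finset.mem_filter, Finset.mem_Icc] at this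
    omega
  refine ⟨D159.Ncyc n * (1 + n * w), D159.Ncyc n * (n * e), ?_, by positivity, ?_⟩
  · have : n ≤ D159.Ncyc n * (1 + n * w) := by
      calc n ≤ 1 + n * w := by nlinarith
        _ ≤ D159.Ncyc n * (1 + n * w) := Nat.le_mul_of_pos_left _ (by omega)
    omega
  · intro i hi
    rw [hterm i hi]
    refine ⟨⟨?_, (hps i hi).2.1, (hps i hi).2.2⟩, ?_⟩
    · calc 1 < D159.Ncyc n := hN1
        _ ≤ D159.Ncyc n * (1 + n * (w + i * e)) := Nat.le_mul_of_pos_right _ (by positivity)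
    · refine hNodd.mul ?_
      obtain ⟨c, hc⟩ := h2n
      exact ⟨c * (w + i * e), by rw [hc]; ring⟩

/-- `n ∣ 2 ^ n - 2` in the form of a congruence. -/
theorem modEq_of_dvd (n : ℕ) (hn : 1 < n) (h : n ∣ 2 ^ n - 2) : 2 ^ n ≡ 2 [MOD n] := by
  have h2 : 2 ≤ 2 ^ n := by
    calc 2 = 2 ^ 1 := by norm_num
      _ ≤ 2 ^ n := Nat.pow_le_pow_right (by norm_num) hn.le
  exact ((Nat.modEq_iff_dvd' h2).mpr h).symm

/-- For odd `n` the congruence `2 ^ n ≡ 2` gives `2 ^ (n - 1) ≡ 1`. -/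
theorem pow_pred_modEq (n : ℕ) (hn : 1 < n) (hodd : Odd n) (h : 2 ^ n ≡ 2 [MOD n]) :
    2 ^ (n - 1) ≡ 1 [MOD n] := by
  have hc : Nat.gcd n 2 = 1 := (Nat.coprime_two_right.mpr hodd)
  apply Nat.ModEq.cancel_left_of_coprime hc
  have : 2 * 2 ^ (n - 1) = 2 ^ n := by
    rw [← pow_succ']
    congr 1
    omega
  rw [this, mul_one]
  exact h

/-- Progressions with arbitrarily large terms, all terms odd, in the language of quintuples. -/
theorem large (B : ℕ) : ∃ x : Fin 5 → ℕ, IsFiveTermProgression x ∧ ∀ i, B < x i ∧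
    IsPseudoprime (x i) ∧ Odd (x i) ∧ 2 ^ (x i - 1) ≡ 1 [MOD x i] := by
  obtain ⟨a, d, hB, hd, h⟩ := strong B
  refine ⟨fun i => a + (i : ℕ) * d, ⟨fun i => ?_, a, d, hd, fun i => rfl⟩, fun i => ?_⟩
  · have := (h i i.2).1.1
    simp only
    omega
  · obtain ⟨⟨h1, h2, h3⟩, h4⟩ := h i i.2
    have h5 := modEq_of_dvd _ h1 h3
    refine ⟨?_, ⟨h1, h2, h5⟩, h4, pow_pred_modEq _ h1 h4 h5⟩
    calc B < a := hB
      _ ≤ a + (i : ℕ) * d := Nat.le_add_right _ _

/-- **Infinitely many five-term arithmetic progressions of pseudoprimes.** The set of all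
five-term arithmetic progressions (quintuples of positive integers with common difference
`d ≥ 1`) all of whose terms are pseudoprimes (to base 2) is infinite; equivalently the set of
all pairs `(a, d)` of positive integers such that `a, a + d, a + 2 d, a + 3 d, a + 4 d` are all
pseudoprimes is infinite. Moreover for every `B` there is such a progression all of whose terms
are larger than `B`, are odd and satisfy also `2 ^ (n - 1) ≡ 1 (mod n)`. -/
theorem result :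
    {x : Fin 5 → ℕ | IsFiveTermProgression x ∧ ∀ i, IsPseudoprime (x i)}.Infinite ∧
    {p : ℕ × ℕ | 1 ≤ p.1 ∧ 1 ≤ p.2 ∧ IsPseudoprime p.1 ∧ IsPseudoprime (p.1 + p.2) ∧
      IsPseudoprime (p.1 + 2 * p.2) ∧ IsPseudoprime (p.1 + 3 * p.2) ∧
      IsPseudoprime (p.1 + 4 * p.2)}.Infinite ∧
    ∀ B : ℕ, ∃ x : Fin 5 → ℕ, IsFiveTermProgression x ∧ ∀ i, B < x i ∧
      IsPseudoprime (x i) ∧ Odd (x i) ∧ 2 ^ (x i - 1) ≡ 1 [MOD x i] := by
  refine ⟨?_, ?_, large⟩
  · intro hfin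
    obtain ⟨B, hB⟩ := (hfin.image (fun x => x 0)).bddAbove
    obtain ⟨x, hx, hx'⟩ := large B
    have : x 0 ≤ B := hB ⟨x, ⟨hx, fun i => (hx' i).2.1⟩, rfl⟩
    exact absurd this (not_le.mpr (hx' 0).1)
  · intro hfin
    obtain ⟨B, hB⟩ := (hfin.image Prod.fst).bddAbove
    obtain ⟨x, ⟨hpos, a, d, hd, hx⟩, hx'⟩ := large B
    have h0 : x 0 = a := by simpa using hx 0
    have h1 : x 1 = a + d := by simpa using hx 1
    have h2 : x 2 = a + 2 * d := by simpa using hx 2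
    have h3 : x 3 = a + 3 * d := by simpa using hx 3
    have h4 : x 4 = a + 4 * d := by simpa using hx 4
    have hmem : (a, d) ∈ {p : ℕ × ℕ | 1 ≤ p.1 ∧ 1 ≤ p.2 ∧ IsPseudoprime p.1 ∧
      IsPseudoprime (p.1 + p.2) ∧ IsPseudoprime (p.1 + 2 * p.2) ∧ IsPseudoprime (p.1 + 3 * p.2) ∧
      IsPseudoprime (p.1 + 4 * p.2)} := by
      refine ⟨h0 ▸ hpos 0, hd, h0 ▸ (hx' 0).2.1, h1 ▸ (hx' 1).2.1, h2 ▸ (hx' 2).2.1,
        h3 ▸ (hx' 3).2.1, h4 ▸ (hx' 4).2.1⟩
    have : a ≤ B := hB ⟨(a, d), hmem, rfl⟩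
    have h5 := (hx' 0).1
    omega

end Pool.Agent.Results.MP_d159ed_nt.FullAnswer
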